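import Mathlib

namespace Pool.Agent.MP_151be3_an

/-- `V` admits a `C¹`-smooth bump function: a real function on `V` that is `C¹` (Fréchet
differentiable with norm-continuous derivative) on all of `V`, is not identically zero, and whose
support `{v | b v ≠ 0}` is a bounded set. -/
def HasC1Bump (V : Type*) [NormedAddCommGroup V] [NormedSpace ℝ V] : Prop :=
  ∃ b : V → ℝ, ContDiff ℝ 1 b ∧ (∃ v, b v ≠ 0) ∧ Bornology.IsBounded {v | b v ≠ 0}

end Pool.Agent.MP_151be3_an
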